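import Pool.Agent.H72.EM.Basic

/-!
# Perfect matchings of a graph on `Fin n` (row GI)
-/

set_option autoImplicit false

open Finset Pool.Agent.H72.EM

namespace Pool.Agent.H16.EMC

/-- the edges of an involution without fixed points -/
theorem card_image_edges {V : Type} [DecidableEq V] (μ : V → V) (h : ∀ i, μ (μ i) = i)
    (h' : ∀ i, μ i ≠ i) (S : Finset V) (hS : ∀ i ∈ S, μ i ∈ S) :
    S.card = 2 * (S.image fun i => s(i, μ i)).card := by
  rw [Finset.card_eq_sum_card_image (fun i => s(i, μ i)) S]
  rw [Finset.sum_const_nat (m := 2), mul_comm]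
  intro x hx
  obtain ⟨i, hi, rfl⟩ := Finset.mem_image.1 hx
  have : (S.filter fun a => s(a, μ a) = s(i, μ i)) = {i, μ i} := by
    ext a
    rw [Finset.mem_filter, Sym2.eq_iff, Finset.mem_insert, Finset.mem_singleton]
    constructor
    · rintro ⟨-, h1 | h1⟩
      · exact Or.inl h1.1
      · exact Or.inr h1.1
    · rintro (rfl | rfl)
      · exact ⟨hi, Or.inl ⟨rfl, rfl⟩⟩
      · exact ⟨hS _ hi, Or.inr ⟨rfl, h _⟩⟩
  rw [this, Finset.card_pair (h' i).symm]

theorem pf_GI : T_GI := by
  intro n k G R hR
  classical
  constructor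
  · rintro ⟨M, hM, hk⟩
    rw [SimpleGraph.Subgraph.isPerfectMatching_iff] at hM
    choose μ hμ hu using hM
    have h1 : ∀ i, μ (μ i) = i := fun i => (hu (μ i) i (hμ i).symm).symm
    have h2 : ∀ i, G.Adj i (μ i) := fun i => (hμ i).adj_sub
    have h3 : ∀ i, entry G R i (μ i) = 2 ↔ s(i, μ i) ∈ R := by
      intro i
      unfold entry
      rw [if_pos (h2 i)]
      split_ifs with h <;> simp [h]
    refine ⟨μ, h1, fun i => ?_, ?_⟩
    · unfold entry
      rw [if_pos (h2 i)]
      split_ifs <;> simp
    · rw [card_image_edges μ h1 (fun i => (h2 i).ne') _ (fun i hi => ?_)]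
      · congr 1
        rw [← hk, ← Set.ncard_coe_finset]
        congr 1
        ext x
        simp only [Finset.coe_image, Finset.coe_filter, Finset.mem_univ, true_and, h3,
          Set.mem_image, Set.mem_ofPred_eq, Set.mem_inter_iff]
        constructor
        · rintro ⟨i, hi, rfl⟩
          exact ⟨hμ i, hi⟩
        · rintro ⟨hx, hx'⟩
          induction x using Sym2.ind with
          | _ a b =>
            have hab : M.Adj a b := hx
            have := hu a b hab
            subst this
            exact ⟨a, hx', rfl⟩
      · rw [Finset.mem_filter, h3] at hi ⊢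
        rw [h1, Sym2.eq_swap]
        exact ⟨Finset.mem_univ _, hi.2⟩
  · rintro ⟨μ, h1, h2, h3⟩
    have h4 : ∀ i, G.Adj i (μ i) := by
      intro i
      by_contra h
      apply h2 i
      unfold entry
      rw [if_neg h]
    have h5 : ∀ i, entry G R i (μ i) = 2 ↔ s(i, μ i) ∈ R := by
      intro i
      unfold entry
      rw [if_pos (h4 i)]
      split_ifs with h <;> simp [h]
    let M : G.Subgraph :=
      { verts := Set.univ
        Adj := fun i j => μ i = j
        adj_sub := by
          rintro i j rfl
          exact h4 i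
        edge_vert := fun _ => Set.mem_univ _
        symm := ⟨by
          rintro i j rfl
          exact h1 i⟩ }
    refine ⟨M, ?_, ?_⟩
    · rw [SimpleGraph.Subgraph.isPerfectMatching_iff]
      exact fun v => ⟨μ v, rfl, fun w hw => (show μ v = w from hw).symm⟩
    · rw [card_image_edges μ h1 (fun i => (h4 i).ne') _ (fun i hi => ?_)] at h3
      · have h6 := Nat.eq_of_mul_eq_mul_left (by norm_num) h3
        rw [← h6, ← Set.ncard_coe_finset]
        congr 1
        ext x
        simp only [Finset.coe_image, Finset.coe_filter, Finset.mem_univ, true_and, h5,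
          Set.mem_image, Set.mem_ofPred_eq, Set.mem_inter_iff]
        constructor
        · rintro ⟨hx, hx'⟩
          induction x using Sym2.ind with
          | _ a b =>
            have hab : μ a = b := hx
            subst hab
            exact ⟨a, hx', rfl⟩
        · rintro ⟨i, hi, rfl⟩
          exact ⟨rfl, hi⟩
      · rw [Finset.mem_filter, h5] at hi ⊢
        rw [h1, Sym2.eq_swap]
        exact ⟨Finset.mem_univ _, hi.2⟩

end Pool.Agent.H16.EMC
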