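import Pool.Agent.H16.EMC.GI

/-!
# Perfect matchings of the graph of a dart involution (row GT)
-/

set_option autoImplicit false

open Finset Pool.Agent.H72.EM

namespace Pool.Agent.H16.EMC

section

variable {V : Type} {N : ℕ} {τ : Dt V → Dt V} {red : Dt V → Bool}

theorem mem_rds (e : V ≃ Fin N) (h : IsPG τ) (hr : ∀ x, red (τ x) = red x) {v w : V} {p : Fin 3}
    (hv : (τ (v, p)).1 = w) : s(e v, e w) ∈ rds τ e red ↔ red (v, p) = true := by
  constructor
  · rintro ⟨a, b, p', hx, hp, hred⟩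
    rw [Sym2.eq_iff] at hx
    rcases hx with ⟨h1, h2⟩ | ⟨h1, h2⟩
    · have h3 : e.symm a = v := by rw [← h1, Equiv.symm_apply_apply]
      have h4 : e.symm b = w := by rw [← h2, Equiv.symm_apply_apply]
      rw [h3, h4] at hp
      rw [h3] at hred
      have : p = p' := h.inj v p p' (by rw [hv, hp])
      rw [this]
      exact hred
    · have h3 : e.symm a = w := by rw [← h2, Equiv.symm_apply_apply]
      have h4 : e.symm b = v := by rw [← h1, Equiv.symm_apply_apply]
      rw [h3, h4] at hp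
      rw [h3] at hred
      have h5 : τ (v, p) = (w, (τ (v, p)).2) := by rw [← hv]
      have h6 : τ (w, (τ (v, p)).2) = (v, p) := by rw [← h5, h.inv]
      have h7 : p' = (τ (v, p)).2 := h.inj w p' _ (by rw [hp, h6])
      rw [← hr, h5, ← h7]
      exact hred
  · intro hred
    exact ⟨e v, e w, p, rfl, by rw [Equiv.symm_apply_apply, Equiv.symm_apply_apply]; exact hv,
      by rw [Equiv.symm_apply_apply]; exact hred⟩

theorem gph_adj (e : V ≃ Fin N) (h : IsPG τ) {v w : V} {p : Fin 3} (hv : (τ (v, p)).1 = w) :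
    (gph τ e h).Adj (e v) (e w) :=
  ⟨p, by rw [Equiv.symm_apply_apply, Equiv.symm_apply_apply]; exact hv⟩

theorem entry_eq_two (e : V ≃ Fin N) (h : IsPG τ) (hr : ∀ x, red (τ x) = red x) {v w : V}
    {p : Fin 3} (hv : (τ (v, p)).1 = w) :
    entry (gph τ e h) (rds τ e red) (e v) (e w) = 2 ↔ red (v, p) = true := by
  rw [← mem_rds e h hr hv]
  unfold entry
  rw [if_pos (gph_adj e h hv)]
  split_ifs with h1 <;> simp [h1]

theorem card_eq [Fintype V] (e : V ≃ Fin N) (p : V → Prop) (q : Fin N → Prop) [DecidablePred p]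
    [DecidablePred q] (h : ∀ v, p v ↔ q (e v)) : (univ.filter p).card = (univ.filter q).card := by
  refine Finset.card_bij (fun v _ => e v) (fun v hv => ?_) (fun v _ w _ hvw => e.injective hvw)
    fun i hi => ⟨e.symm i, ?_, by simp⟩
  · rw [Finset.mem_filter] at hv ⊢
    exact ⟨Finset.mem_univ _, (h v).1 hv.2⟩
  · rw [Finset.mem_filter] at hi ⊢
    refine ⟨Finset.mem_univ _, (h _).2 ?_⟩
    rw [Equiv.apply_symm_apply]
    exact hi.2

theorem rds_sub (e : V ≃ Fin N) (h : IsPG τ) : rds τ e red ⊆ (gph τ e h).edgeSet := by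
  rintro x ⟨a, b, p, rfl, hp, -⟩
  exact ⟨p, hp⟩

end

theorem pf_GT (h : T_GI) : T_GT := by
  intro V _ N k τ e hτ red hr
  refine ⟨rds_sub e hτ, ?_⟩
  rw [h N k (gph τ e hτ) (rds τ e red) (rds_sub e hτ)]
  constructor
  · rintro ⟨μ, h1, h2, h3⟩
    have h4 : ∀ v, ∃ p, (τ (v, p)).1 = e.symm (μ (e v)) := by
      intro v
      by_contra hcon
      apply h2 (e v)
      unfold entry
      rw [if_neg]
      rintro ⟨p, hp⟩
      rw [Equiv.symm_apply_apply] at hp
      exact hcon ⟨p, hp⟩
    choose χ hχ using h4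
    refine ⟨χ, fun v => ?_, ?_⟩
    · have h5 : τ (v, χ v) = (e.symm (μ (e v)), (τ (v, χ v)).2) := by rw [← hχ]
      have h6 := hχ (e.symm (μ (e v)))
      rw [Equiv.apply_symm_apply, h1, Equiv.symm_apply_apply] at h6
      have h7 : τ (e.symm (μ (e v)), (τ (v, χ v)).2) = (v, χ v) := by rw [← h5, hτ.inv]
      rw [hχ]
      exact hτ.inj _ _ _ (by rw [h7, h6])
    · rw [← h3]
      refine card_eq e _ _ fun v => ?_
      rw [← entry_eq_two e hτ hr (hχ v), Equiv.apply_symm_apply]
  · rintro ⟨χ, h1, h2⟩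
    have hw : ∀ v, τ (v, χ v) = ((τ (v, χ v)).1, χ (τ (v, χ v)).1) := fun v => by rw [← h1]
    refine ⟨fun i => e (τ (e.symm i, χ (e.symm i))).1, fun i => ?_, fun i => ?_, ?_⟩
    · beta_reduce
      rw [Equiv.symm_apply_apply, ← hw, hτ.inv, Equiv.apply_symm_apply]
    · beta_reduce
      have h3 := gph_adj e hτ (v := e.symm i) (p := χ (e.symm i)) rfl
      rw [Equiv.apply_symm_apply] at h3
      unfold entry
      rw [if_pos h3]
      split_ifs <;> simp
    · rw [← h2]
      refine (card_eq e _ _ fun v => ?_).symm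
      beta_reduce
      rw [Equiv.symm_apply_apply]
      exact (entry_eq_two e hτ hr rfl).symm

end Pool.Agent.H16.EMC
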